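import Pool.Agent.Helper85.QT.St2

/-!
# Project QT, module TTX: flat height and radial projection
-/

set_option autoImplicit false

open MeasureTheory Matrix Set Topology
open scoped ENNReal ComplexConjugate

namespace Pool.Agent.Helper3.QT

open Pool.Agent.Helper85.QT Pool.Agent.Helper86.QA

private theorem NN_pos {x : Pt} (hx : x ∈ up) : 0 < NN x := by
  have h : (0 : ℝ) < x.2 := hx
  unfold NN
  positivity

private theorem sq_pos' {x : Pt} (hx : x ∈ up) : 0 < Real.sqrt (NN x) := Real.sqrt_pos.mpr (NN_pos hx)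

private theorem sq_sq {x : Pt} (hx : x ∈ up) : Real.sqrt (NN x) ^ 2 = ‖x.1‖ ^ 2 + x.2 ^ 2 :=
  Real.sq_sqrt (NN_pos hx).le

private theorem le_sq {x : Pt} (hx : x ∈ up) : x.2 ≤ Real.sqrt (NN x) := by
  refine Real.le_sqrt_of_sq_le ?_
  unfold NN
  have := sq_nonneg ‖x.1‖
  linarith

private theorem TTmul (lam : ℂ) (hl : lam ≠ 0) (x : Pt) (hx : x ∈ up) :
    TT lam x * ‖lam‖ = x.2 / Real.sqrt (NN x) := by
  have h1 := sq_pos' hx
  have h2 : 0 < ‖lam‖ := norm_pos_iff.mpr hl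
  unfold TT
  field_simp

private theorem norm_rd {x : Pt} (hx : x ∈ up) (h1 : x.1 ≠ 0) : ‖rd x‖ = Real.sqrt (NN x) := by
  have h2 : 0 < ‖x.1‖ := norm_pos_iff.mpr h1
  have h3 := sq_pos' hx
  unfold rd
  rw [norm_mul, Complex.norm_real, Real.norm_eq_abs, abs_of_pos (div_pos h3 h2)]
  field_simp

private theorem part1 (lam : ℂ) (hl : lam ≠ 0) (x : Pt) (hx : x ∈ up) :
    0 < TT lam x ∧ TT lam x * ‖lam‖ ≤ 1 ∧ (TT lam x * ‖lam‖ < 1 ↔ x.1 ≠ 0) := by
  have h1 := sq_pos' hx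
  have h2 : 0 < ‖lam‖ := norm_pos_iff.mpr hl
  have hx2 : (0 : ℝ) < x.2 := hx
  refine ⟨?_, ?_, ?_⟩
  · unfold TT
    positivity
  · rw [TTmul lam hl x hx, div_le_one h1]
    exact le_sq hx
  · rw [TTmul lam hl x hx, div_lt_one h1]
    constructor
    · intro h h0
      have h3 := sq_sq hx
      rw [h0, norm_zero] at h3
      nlinarith
    · intro h0
      have h3 : 0 < ‖x.1‖ := norm_pos_iff.mpr h0
      refine Real.lt_sqrt_of_sq_lt ?_
      unfold NN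
      have : 0 < ‖x.1‖ ^ 2 := by positivity
      linarith

private theorem part2 (lam : ℂ) (hl : lam ≠ 0) (T : ℝ) (ξ : ℂ) (hT : 0 < T) (h : T * ‖lam‖ < 1)
    (hξ : ξ ≠ 0) : xp lam T ξ ∈ up ∧ TT lam (xp lam T ξ) = T ∧ rd (xp lam T ξ) = ξ := by
  have h2 : 0 < ‖lam‖ := norm_pos_iff.mpr hl
  have h3 : 0 < ‖ξ‖ := norm_pos_iff.mpr hξ
  have hs : 0 < T * ‖lam‖ := mul_pos hT h2
  have h4 : 0 < 1 - (T * ‖lam‖) ^ 2 := by nlinarith
  have h5 : 0 < Real.sqrt (1 - (T * ‖lam‖) ^ 2) := Real.sqrt_pos.mpr h4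
  have e1 : ‖(xp lam T ξ).1‖ = ‖ξ‖ * Real.sqrt (1 - (T * ‖lam‖) ^ 2) := by
    unfold xp
    rw [norm_mul, Complex.norm_real, Real.norm_eq_abs, abs_of_pos h5]
  have e2 : (xp lam T ξ).2 = ‖ξ‖ * (T * ‖lam‖) := rfl
  have e3 : NN (xp lam T ξ) = ‖ξ‖ ^ 2 := by
    unfold NN
    rw [e1, e2, mul_pow, Real.sq_sqrt h4.le]
    ring
  have e4 : Real.sqrt (NN (xp lam T ξ)) = ‖ξ‖ := by
    rw [e3, Real.sqrt_sq h3.le]
  refine ⟨?_, ?_, ?_⟩
  · change 0 < (xp lam T ξ).2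
    rw [e2]
    positivity
  · unfold TT
    rw [e4, e2]
    field_simp
  · unfold rd
    rw [e4, e1]
    have e5 : (xp lam T ξ).1 = ξ * ((Real.sqrt (1 - (T * ‖lam‖) ^ 2) : ℝ) : ℂ) := rfl
    rw [e5, mul_assoc, ← Complex.ofReal_mul]
    have e6 : Real.sqrt (1 - (T * ‖lam‖) ^ 2) * (‖ξ‖ / (‖ξ‖ * Real.sqrt (1 - (T * ‖lam‖) ^ 2))) = 1 := by
      rw [mul_div_assoc', mul_comm]
      exact div_self (mul_ne_zero h3.ne' h5.ne')
    rw [e6, Complex.ofReal_one, mul_one]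

private theorem part4 (lam : ℂ) (hl : lam ≠ 0) (x : Pt) (hx : x ∈ up) (h0 : x.1 ≠ 0) :
    rd x ≠ 0 ∧ xp lam (TT lam x) (rd x) = x ∧ ‖rd x - x.1‖ ≤ x.2 ∧
      x.2 = ‖lam‖ * TT lam x * ‖rd x‖ := by
  have h1 := sq_pos' hx
  have h2 : 0 < ‖lam‖ := norm_pos_iff.mpr hl
  have h3 : 0 < ‖x.1‖ := norm_pos_iff.mpr h0
  have hx2 : (0 : ℝ) < x.2 := hx
  have h4 := sq_sq hx
  have hn := norm_rd hx h0
  refine ⟨?_, ?_, ?_, ?_⟩
  · intro h
    rw [h, norm_zero] at hn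
    exact h1.ne hn
  · unfold xp
    rw [TTmul lam hl x hx, hn]
    have e1 : 1 - (x.2 / Real.sqrt (NN x)) ^ 2 = (‖x.1‖ / Real.sqrt (NN x)) ^ 2 := by
      rw [div_pow, div_pow, h4]
      have : ‖x.1‖ ^ 2 + x.2 ^ 2 ≠ 0 := by positivity
      field_simp
      ring
    rw [e1, Real.sqrt_sq (div_pos h3 h1).le]
    refine Prod.ext ?_ ?_
    · change rd x * ((‖x.1‖ / Real.sqrt (NN x) : ℝ) : ℂ) = x.1
      unfold rd
      rw [mul_assoc, ← Complex.ofReal_mul]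
      have e2 : Real.sqrt (NN x) / ‖x.1‖ * (‖x.1‖ / Real.sqrt (NN x)) = 1 := by
        field_simp
      rw [e2, Complex.ofReal_one, mul_one]
    · change Real.sqrt (NN x) * (x.2 / Real.sqrt (NN x)) = x.2
      field_simp
  · have e1 : rd x - x.1 = x.1 * ((Real.sqrt (NN x) / ‖x.1‖ - 1 : ℝ) : ℂ) := by
      unfold rd
      push_cast
      ring
    have e2 : ‖x.1‖ ≤ Real.sqrt (NN x) := by
      refine Real.le_sqrt_of_sq_le ?_
      unfold NN
      have := sq_nonneg x.2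
      linarith
    have e3 : 0 ≤ Real.sqrt (NN x) / ‖x.1‖ - 1 := by
      rw [sub_nonneg, one_le_div h3]
      exact e2
    rw [e1, norm_mul, Complex.norm_real, Real.norm_eq_abs, abs_of_nonneg e3]
    have e4 : ‖x.1‖ * (Real.sqrt (NN x) / ‖x.1‖ - 1) = Real.sqrt (NN x) - ‖x.1‖ := by
      field_simp
    rw [e4]
    have e5 : Real.sqrt (NN x) ≤ ‖x.1‖ + x.2 := by
      refine Real.sqrt_le_iff.mpr ⟨by positivity, ?_⟩
      unfold NN
      nlinarith
    linarith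
  · rw [hn, mul_comm ‖lam‖, TTmul lam hl x hx]
    field_simp

private theorem part5 (lam : ℂ) (hl : lam ≠ 0) (c : ℂ) (hc : c ≠ 0) (x : Pt) (hx : x ∈ up) :
    TT lam (c * x.1, ‖c‖ * x.2) = TT lam x ∧ rd (c * x.1, ‖c‖ * x.2) = c * rd x := by
  have h1 := sq_pos' hx
  have h2 : 0 < ‖lam‖ := norm_pos_iff.mpr hl
  have h3 : 0 < ‖c‖ := norm_pos_iff.mpr hc
  have e1 : Real.sqrt (NN (c * x.1, ‖c‖ * x.2)) = ‖c‖ * Real.sqrt (NN x) := by
    have : NN (c * x.1, ‖c‖ * x.2) = ‖c‖ ^ 2 * NN x := by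
      unfold NN
      simp only [norm_mul]
      ring
    rw [this, Real.sqrt_mul (sq_nonneg _), Real.sqrt_sq h3.le]
  constructor
  · unfold TT
    rw [e1]
    simp only []
    field_simp
  · unfold rd
    rw [e1]
    simp only [norm_mul]
    have e2 : ‖c‖ * Real.sqrt (NN x) / (‖c‖ * ‖x.1‖) = Real.sqrt (NN x) / ‖x.1‖ := by
      rw [mul_div_mul_left _ _ h3.ne']
    rw [e2]
    ring

private theorem ch_comm' (x y : Pt) : ch x y = ch y x := by
  unfold ch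
  rw [norm_sub_rev]
  congr 1 <;> ring

private theorem part6 (hTRI : StTRI) (lam : ℂ) (hl : lam ≠ 0) (x : Pt) (hx : x ∈ up) (y : Pt)
    (hy : y ∈ up) (h : ch x y ≤ 11 / 10) : TT lam x ≤ 2 * TT lam y := by
  have h1 := sq_pos' hx
  have h1' := sq_pos' hy
  have h2 : 0 < ‖lam‖ := norm_pos_iff.mpr hl
  have hx2 : (0 : ℝ) < x.2 := hx
  have hy2 : (0 : ℝ) < y.2 := hy
  have h4 := sq_sq hx
  have h4' := sq_sq hy
  set r : ℝ := Real.sqrt (NN x) with hr
  have hz : ((0, r) : Pt) ∈ up := h1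
  have hc := hTRI y hy x hx (0, r) hz
  have hcx : ch x (0, r) = r / x.2 := by
    unfold ch
    simp only [sub_zero]
    rw [← h4]
    field_simp
    ring
  have hcy : Real.sqrt (NN y) / y.2 ≤ ch y (0, r) := by
    unfold ch
    simp only [sub_zero]
    rw [← h4', div_le_div_iff₀ hy2 (by positivity)]
    have h5 := sq_nonneg (Real.sqrt (NN y) - r)
    nlinarith [mul_nonneg hy2.le h5]
  rw [ch_comm' y x, hcx] at hc
  have hxy : 1 ≤ ch x y := by
    unfold ch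
    rw [le_div_iff₀ (by positivity)]
    nlinarith [sq_nonneg ‖x.1 - y.1‖, sq_nonneg (x.2 - y.2)]
  have hq : 0 < r / x.2 := div_pos h1 hx2
  have s1 : Real.sqrt (ch x y ^ 2 - 1) ≤ 9 / 10 := by
    refine Real.sqrt_le_iff.mpr ⟨by norm_num, ?_⟩
    nlinarith
  have s2 : Real.sqrt ((r / x.2) ^ 2 - 1) ≤ r / x.2 := by
    refine Real.sqrt_le_iff.mpr ⟨hq.le, ?_⟩
    linarith
  have s3 : Real.sqrt (ch x y ^ 2 - 1) * Real.sqrt ((r / x.2) ^ 2 - 1) ≤ 9 / 10 * (r / x.2) :=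
    mul_le_mul s1 s2 (Real.sqrt_nonneg _) (by norm_num)
  have s4 : ch x y * (r / x.2) ≤ 11 / 10 * (r / x.2) := mul_le_mul_of_nonneg_right h hq.le
  have s5 : Real.sqrt (NN y) / y.2 ≤ 2 * (r / x.2) := by linarith
  unfold TT
  rw [← hr]
  rw [mul_div_assoc', div_le_div_iff₀ hy2 hx2] at s5
  rw [mul_div_assoc', div_le_div_iff₀ (by positivity) (by positivity)]
  nlinarith [mul_le_mul_of_nonneg_left s5 h2.le]

theorem hTTX (hTRI : Pool.Agent.Helper85.QT.StTRI) : Pool.Agent.Helper85.QT.StTTX := by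
  intro lam hl
  have hN : Continuous NN := by
    unfold NN
    fun_prop
  refine ⟨fun x hx => part1 lam hl x hx, fun T ξ hT h hξ => part2 lam hl T ξ hT h hξ,
    fun x hx h0 => part4 lam hl x hx h0, fun c hc x hx => part5 lam hl c hc x hx,
    fun x hx y hy h => part6 hTRI lam hl x hx y hy h, ?_, ?_⟩
  · unfold TT
    refine ContinuousOn.div continuous_snd.continuousOn ?_ ?_
    · exact (continuous_const.mul (Real.continuous_sqrt.comp hN)).continuousOn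
    · intro x hx
      exact mul_ne_zero (norm_ne_zero_iff.mpr hl) (sq_pos' hx).ne'
  · unfold TT
    exact measurable_snd.div (measurable_const.mul (Real.continuous_sqrt.comp hN).measurable)

end Pool.Agent.Helper3.QT
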